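import Mathlib
import Pool.Agent.H.MP_af711c_co.D

set_option autoImplicit false

namespace Pool.Agent.Results.MP_af711c_co.Lower

open Pool.Agent.H.MP_af711c_co

theorem result : ∀ (strict : Bool) (n : ℕ), 40 ^ 8 ≤ n →
    (n : ℝ) * Real.logb 2 n / 40 ≤ Real.logb 2 (N strict n) :=
  final

end Pool.Agent.Results.MP_af711c_co.Lower
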